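import Pool.Agent.Helper35.LR.Bridge
import Pool.Agent.Helper91.LR.Main
import Pool.Agent.Helper91.LR.Poly
import Pool.Agent.Helper91.LR.Stmt

/-!
# MP_c8dff2_co: `L(h,k,n) = min(h,k)` when `|h - k| + 1 > max(2, (log₂ min(h,k))² / 2)`

The definitions used in `result` are `LR.IsLatin`, `LR.IsPT`, `LR.pt` and `LR.L`, all in
`Pool/Agent/Helper35/LR/Defs.lean`.
-/

set_option autoImplicit false

namespace Pool.Agent.Results.MP_c8dff2_co.LogSquaredGap

open LR

/-- bounds for one array, wide case -/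
lemma wide {h k n : ℕ} {R : Fin h → Fin k → Fin n} (hR : IsLatin R) (hlt : pt R < h) :
    (k - pt R) * (k - pt R + 1) ≤ 2 * pt R ∧
    (((k - pt R : ℕ) : ℝ) ≤ 2 ∨ ((k - pt R : ℕ) : ℝ) ≤ Real.logb 2 (pt R) ^ 2 / 2) := by
  obtain ⟨T0, hT0, hc⟩ := exists_max R
  have hk : T0.card ≤ k := by
    rw [← card_cols hT0.1]
    simpa using Finset.card_le_univ (cols T0)
  obtain ⟨v, hv⟩ := Nat.exists_eq_add_of_le hk
  obtain ⟨u, hu⟩ := Nat.exists_eq_add_of_le (show T0.card ≤ h by omega)
  have hv' : T0.card + v = Fintype.card (Fin k) := by simp [hv]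
  have hu' : T0.card + u = Fintype.card (Fin h) := by simp [hu]
  have hlt' : T0.card < Fintype.card (Fin h) := by simp; omega
  have hu1 : 1 ≤ u := by omega
  have hvk : k - pt R = v := by omega
  have hmono : ∀ b, b < v → sm R b ≤ sm R (b + 1) := fun b hb => sm_mono hT0 hv' hb
  have hge : ∀ b, b ≤ v → b ≤ sm R b := fun b hb => le_sm hR.1 hT0 hv' hlt' hb
  have hseq := fun b (hb1 : 1 ≤ b) (hb : b ≤ v) => seq_exists hR.1 hR.2 hT0 hv' hu' hb1 hb
  have hsv : sm R v ≤ pt R := by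
    rw [← hc]
    have h1 : sm R v ≤ (SS R ∅ T0).card := sm_le (G := ∅) ⟨hT0, by simp⟩ (by simpa using hv')
    exact h1.trans (SS_card_le ⟨hT0, by simp⟩)
  rw [hvk]
  constructor
  · have h1 := Pool.Agent.Helper91.LR.poly_bound v (sm R) hge (fun b hb1 hb => by
      obtain ⟨t, h0, h1, h2⟩ := hseq b hb1 hb
      refine ⟨t, h0, h1, ?_⟩
      intro g hg
      refine le_trans ?_ (h2 g hg)
      have hg' : (0 : ℤ) ≤ (b : ℤ) - g := by
        have : (g : ℤ) ≤ b := by exact_mod_cast hg.le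
        linarith
      have hu2 : (0 : ℤ) ≤ (u : ℤ) - 1 := by
        have : (1 : ℤ) ≤ u := by exact_mod_cast hu1
        linarith
      have e1 : ((sm R b : ℤ) - t g + u) * ((b : ℤ) - g) +
          ((t g : ℤ) + g) * ((sm R (b - 1) : ℤ) + u - 2 * t g) =
          (((sm R b : ℤ) - t g + 1) * ((b : ℤ) - g) +
            ((t g : ℤ) + g) * ((sm R (b - 1) : ℤ) + 1 - 2 * t g))
          + (u - 1) * (((b : ℤ) - g) + ((t g : ℤ) + g)) := by ring
      rw [e1]
      have : (0 : ℤ) ≤ (u - 1) * (((b : ℤ) - g) + ((t g : ℤ) + g)) := by positivity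
      linarith) v le_rfl
    omega
  · rcases Nat.lt_or_ge v 3 with h3 | h3
    · left
      have : v ≤ 2 := by omega
      exact_mod_cast this
    · right
      have h1 := Pool.Agent.Helper91.LR.numeric_sharp v u hu1 (sm R) hmono hge hseq h3
      have h4 : 1 ≤ sm R v := le_trans (by omega) (hge v le_rfl)
      have h5 : (1 : ℝ) ≤ sm R v := by exact_mod_cast h4
      have h6 : (sm R v : ℝ) ≤ pt R := by exact_mod_cast hsv
      have h7 : 0 ≤ Real.logb 2 (sm R v) := Real.logb_nonneg (by norm_num) h5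
      have h8 : Real.logb 2 (sm R v) ≤ Real.logb 2 (pt R) :=
        Real.logb_le_logb_of_le (by norm_num) (by linarith) h6
      have h9 : Real.logb 2 (sm R v) ^ 2 ≤ Real.logb 2 (pt R) ^ 2 := pow_le_pow_left₀ h7 h8 2
      linarith

/-- bounds for one array -/
lemma both {h k n : ℕ} {R : Fin h → Fin k → Fin n} (hR : IsLatin R) (hlt : pt R < min h k) :
    (max h k - pt R) * (max h k - pt R + 1) ≤ 2 * pt R ∧
    (((max h k - pt R : ℕ) : ℝ) ≤ 2 ∨
      ((max h k - pt R : ℕ) : ℝ) ≤ Real.logb 2 (pt R) ^ 2 / 2) := by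
  obtain ⟨h1, h2⟩ := lt_min_iff.1 hlt
  rcases le_total h k with hk | hk
  · rw [max_eq_right hk]
    exact wide hR h1
  · rw [max_eq_left hk]
    have h3 : pt (fun c r => R r c) < k := by rw [pt_flip]; exact h2
    have := wide hR.flip h3
    rwa [pt_flip] at this

/-- Let `v = max h k - pt R` for a latin rectangle `R` with `pt R < min h k`. Then
`v (v + 1) ≤ 2 pt R`, and `v ≤ 2` or `v ≤ (log₂ (pt R))² / 2`. Consequences for `L h k n`. -/
theorem result :
    (∀ (h k n : ℕ) (R : Fin h → Fin k → Fin n), IsLatin R → pt R < min h k →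
      (max h k - pt R) * (max h k - pt R + 1) ≤ 2 * pt R ∧
      ((max h k - pt R : ℕ) : ℝ) ≤ max 2 (Real.logb 2 (pt R) ^ 2 / 2)) ∧
    (∀ h k n : ℕ, 1 ≤ h → h ≤ n → 1 ≤ k → k ≤ n →
      ((∃ R : Fin h → Fin k → Fin n, IsLatin R ∧ pt R = L h k n) ∧
        ∀ R : Fin h → Fin k → Fin n, IsLatin R → L h k n ≤ pt R) ∧
      (max 2 (Real.logb 2 ((min h k : ℕ) : ℝ) ^ 2 / 2) < ((max h k - min h k + 1 : ℕ) : ℝ) →
        L h k n = min h k) ∧
      (2 * (min h k - 1) < (max h k - min h k + 1) * (max h k - min h k + 2) →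
        L h k n = min h k) ∧
      min ((min h k : ℕ) : ℝ)
          (((max h k : ℕ) : ℝ) - max 2 (Real.logb 2 ((min h k : ℕ) : ℝ) ^ 2 / 2)) ≤
        (L h k n : ℝ)) := by
  refine ⟨fun h k n R hR hlt => ⟨(both hR hlt).1, ?_⟩, ?_⟩
  · rcases (both hR hlt).2 with h1 | h1
    · exact h1.trans (le_max_left _ _)
    · exact h1.trans (le_max_right _ _)
  intro h k n hh hhn hk hkn
  obtain ⟨R, hR, hRL⟩ := exists_L hhn hkn
  -- the key alternative
  have key : L h k n = min h k ∨ (L h k n < min h k ∧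
      (max h k - L h k n) * (max h k - L h k n + 1) ≤ 2 * L h k n ∧
      ((max h k - L h k n : ℕ) : ℝ) ≤ max 2 (Real.logb 2 ((min h k : ℕ) : ℝ) ^ 2 / 2)) := by
    rcases Nat.lt_or_ge (pt R) (min h k) with hlt | hge
    · right
      rw [← hRL]
      refine ⟨hlt, (both hR hlt).1, ?_⟩
      have h1 : 1 ≤ pt R := one_le_pt R hh hk
      have h2 : (1 : ℝ) ≤ pt R := by exact_mod_cast h1
      have h3 : (pt R : ℝ) ≤ ((min h k : ℕ) : ℝ) := by exact_mod_cast hlt.le
      have h4 : 0 ≤ Real.logb 2 (pt R) := Real.logb_nonneg (by norm_num) h2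
      have h5 : Real.logb 2 (pt R) ≤ Real.logb 2 ((min h k : ℕ) : ℝ) :=
        Real.logb_le_logb_of_le (by norm_num) (by linarith) h3
      have h6 : Real.logb 2 (pt R) ^ 2 ≤ Real.logb 2 ((min h k : ℕ) : ℝ) ^ 2 :=
        pow_le_pow_left₀ h4 h5 2
      rcases (both hR hlt).2 with h7 | h7
      · exact h7.trans (le_max_left _ _)
      · exact h7.trans ((by linarith : _ ≤ _).trans (le_max_right _ _))
    · left
      rw [← hRL]
      exact le_antisymm (le_min (pt_le_left R) (pt_le_right R)) hge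
  have hmm : min h k ≤ max h k := min_le_max
  refine ⟨⟨⟨R, hR, hRL⟩, fun R' hR' => L_le hR'⟩, ?_, ?_, ?_⟩
  · intro hgap
    rcases key with h1 | ⟨h1, _, h2⟩
    · exact h1
    · exfalso
      have h3 : max h k - min h k + 1 ≤ max h k - L h k n := by omega
      have h4 : ((max h k - min h k + 1 : ℕ) : ℝ) ≤ ((max h k - L h k n : ℕ) : ℝ) := by
        exact_mod_cast h3
      linarith
  · intro hgap
    rcases key with h1 | ⟨h1, h2, _⟩
    · exact h1
    · exfalso
      have h3 : max h k - min h k + 1 ≤ max h k - L h k n := by omega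
      have h4 : (max h k - min h k + 1) * (max h k - min h k + 2) ≤
          (max h k - L h k n) * (max h k - L h k n + 1) :=
        Nat.mul_le_mul h3 (by omega)
      omega
  · rcases key with h1 | ⟨h1, _, h2⟩
    · rw [h1]; exact min_le_left _ _
    · refine (min_le_right _ _).trans ?_
      have h3 : L h k n ≤ max h k := by omega
      rw [Nat.cast_sub h3] at h2
      linarith

end Pool.Agent.Results.MP_c8dff2_co.LogSquaredGap
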